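import Mathlib
import Pool.Agent.W712.WR.Stm

/-!
Project WR: a finite maximum of differentiable functions does not leave `(-∞, 0]`.
-/

set_option autoImplicit false

open Set Filter Topology

namespace Pool.Agent.W578.WR

open W712.WR

theorem noexit : NoExitStm := by
  intro ι _ f f' a b c hab hc hcont hder h0 hneg
  have hba : 0 < 1 + b - a := by linarith
  have key : ∀ η : ℝ, 0 < η → η * (1 + b - a) ≤ c → ∀ t ∈ Icc a b, ∀ i, f i t ≤ η * (1 + t - a) := by
    intro η hη hηc
    have hsub : Icc a b ⊆ {t : ℝ | ∀ i, f i t ≤ η * (1 + t - a)} := by
      apply IsClosed.Icc_subset_of_forall_mem_nhdsWithin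
      · have e : {t : ℝ | ∀ i, f i t ≤ η * (1 + t - a)} ∩ Icc a b =
            Icc a b ∩ ⋂ i, {t : ℝ | t ∈ Icc a b ∧ f i t ≤ η * (1 + t - a)} := by
          ext t
          simp only [mem_inter_iff, mem_iInter]
          constructor
          · rintro ⟨h1, h2⟩
            exact ⟨h2, fun i => ⟨h2, h1 i⟩⟩
          · rintro ⟨h1, h2⟩
            exact ⟨fun i => (h2 i).2, h1⟩
        rw [e]
        refine isClosed_Icc.inter (isClosed_iInter fun i => ?_)
        exact isClosed_Icc.isClosed_le (hcont i) (by fun_prop)
      · intro i
        have := h0 i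
        have h1 : 0 ≤ η * (1 + a - a) := by rw [add_sub_cancel_right]; linarith
        linarith
      · rintro x ⟨hxs, hx⟩
        show ∀ᶠ z in 𝓝[>] x, ∀ i, f i z ≤ η * (1 + z - a)
        rw [eventually_all]
        intro i
        have hd := (hder i x hx).Ioi_of_Ici
        have hxi : f i x ≤ η * (1 + x - a) := hxs i
        rcases lt_or_eq_of_le hxi with hlt | heq
        · have h1 : Tendsto (fun z => η * (1 + z - a) - f i z) (𝓝[>] x)
              (𝓝 (η * (1 + x - a) - f i x)) := by
            refine Tendsto.sub ?_ hd.continuousWithinAt
            have : Continuous (fun z : ℝ => η * (1 + z - a)) := by fun_prop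
            exact (this.tendsto x).mono_left nhdsWithin_le_nhds
          filter_upwards [h1.eventually (lt_mem_nhds (sub_pos.2 hlt))] with z hz
          linarith
        · have hmax : ∀ j, f j x ≤ f i x := by
            intro j
            rw [heq]
            exact hxs j
          have hx0 : 0 ≤ f i x := by
            rw [heq]
            have : 0 ≤ 1 + x - a := by linarith [hx.1]
            positivity
          have hxc : f i x ≤ c := by
            rw [heq]
            refine le_trans ?_ hηc
            have := hx.2
            gcongr
          have hd0 := hneg x hx i hmax hx0 hxc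
          have h2 := hd.limsup_slope_le' (by simp) (lt_of_le_of_lt hd0 hη)
          filter_upwards [h2, self_mem_nhdsWithin] with z hz hzx
          have hzx' : 0 < z - x := sub_pos.2 hzx
          rw [slope_def_field, div_lt_iff₀ hzx'] at hz
          rw [heq] at hz
          nlinarith
    intro t ht i
    exact hsub ht i
  intro t ht i
  by_contra hcon
  push Not at hcon
  set η := min (c / (1 + b - a)) (f i t / (2 * (1 + b - a))) with hη
  have hη0 : 0 < η := lt_min (by positivity) (by positivity)
  have h1 : η * (1 + b - a) ≤ c := by
    have : η ≤ c / (1 + b - a) := min_le_left _ _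
    rwa [le_div_iff₀ hba] at this
  have h2 : η * (2 * (1 + b - a)) ≤ f i t := by
    have : η ≤ f i t / (2 * (1 + b - a)) := min_le_right _ _
    rwa [le_div_iff₀ (by positivity)] at this
  have h3 := key η hη0 h1 t ht i
  have h4 : η * (1 + t - a) ≤ η * (1 + b - a) := by
    have := ht.2
    gcongr
  nlinarith

end Pool.Agent.W578.WR
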